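import Pool.Agent.K6.H91.MP.Rng

set_option autoImplicit false

/-!
# The core lemma: abelian sections on which the commutator subgroup acts with central commutators
-/

namespace Pool.Agent.K6.H91.MP

open Finset
open scoped commutatorElement

theorem sumD {R : Type*} [Ring R] (H : R) (n : ℕ) :
    (∑ i ∈ range n, ∑ m ∈ range i, H ^ (m + 1)) + ∑ m ∈ range n, (m : R) * H ^ m =
      (n : R) * ((∑ m ∈ range n, H ^ m) - 1) := by
  induction n with
  | zero => simp
  | succ n ih =>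
    have h1 : ∑ m ∈ range n, H ^ (m + 1) = (∑ m ∈ range n, H ^ m) + H ^ n - 1 := by
      rw [← Finset.sum_range_succ, Finset.sum_range_succ']
      simp
    have h2 : (∑ i ∈ range n, ∑ m ∈ range i, H ^ (m + 1)) =
        (n : R) * ((∑ m ∈ range n, H ^ m) - 1) - ∑ m ∈ range n, (m : R) * H ^ m := by
      rw [← ih]; abel
    rw [Finset.sum_range_succ, Finset.sum_range_succ (fun m => (m : R) * H ^ m),
      Finset.sum_range_succ (fun m => H ^ m), h1, h2]
    push_cast
    noncomm_ring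

theorem core_mod {p : ℕ} [Fact p.Prime] {A G : Type*} [AddCommGroup A] [Module (ZMod p) A] [Group G]
    (ρ : G →* Module.End (ZMod p) A) (M : Subgroup G) (hMn : M.Normal)
    (hD : ∀ w ∈ commutator G, ∀ (h : G) (u : A), ρ h (ρ w u - u) = ρ w u - u)
    (hDM : commutator G ≤ M)
    (hNz : ∀ h, h ∉ M → ∑ i ∈ range p, ρ h ^ i = 0)
    (g₀ x : G) (hg₀ : g₀ ∉ M) (hx : x ∈ M) (hxp : x ^ p ∈ commutator G) :
    ∑ i ∈ range p, ρ x ^ i = 0 := by
  have hp0 : ((p : ℕ) : Module.End (ZMod p) A) = 0 := Rng.p0 (p := p)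
  let K : AddSubgroup (Module.End (ZMod p) A) :=
    { carrier := {κ | (∀ h, ρ h * κ = κ) ∧ (∀ u, (∀ h, ρ h u = u) → κ u = 0) ∧
        (∀ h, h ∉ M → κ * ∑ m ∈ range p, (m : Module.End (ZMod p) A) * ρ h ^ m = 0)}
      zero_mem' := ⟨fun h => mul_zero _, fun u _ => rfl, fun h _ => zero_mul _⟩
      add_mem' := fun {κ κ'} h1 h2 =>
        ⟨fun h => by rw [mul_add, h1.1, h2.1],
         fun u hu => by rw [LinearMap.add_apply, h1.2.1 u hu, h2.2.1 u hu, add_zero],
         fun h hh => by rw [add_mul, h1.2.2 h hh, h2.2.2 h hh, add_zero]⟩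
      neg_mem' := fun {κ} h1 =>
        ⟨fun h => by rw [mul_neg, h1.1],
         fun u hu => by rw [LinearMap.neg_apply, h1.2.1 u hu, neg_zero],
         fun h hh => by rw [neg_mul, h1.2.2 h hh, neg_zero]⟩ }
  have hr : ∀ κ ∈ K, ∀ y : G, κ * ρ y ∈ K := by
    rintro κ ⟨h1, h2, h3⟩ y
    refine ⟨fun h => by rw [← mul_assoc, h1], fun u hu => ?_, fun h hh => ?_⟩
    · show κ (ρ y u) = 0
      rw [hu y]
      exact h2 u hu
    · have hy : y * h * y⁻¹ ∉ M := by
        intro h4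
        apply hh
        have := hMn.conj_mem _ h4 y⁻¹
        simpa [mul_assoc] using this
      have e : ρ y * ∑ m ∈ range p, (m : Module.End (ZMod p) A) * ρ h ^ m =
          (∑ m ∈ range p, (m : Module.End (ZMod p) A) * ρ (y * h * y⁻¹) ^ m) * ρ y := by
        rw [Finset.mul_sum, Finset.sum_mul]
        refine Finset.sum_congr rfl fun m _ => ?_
        rw [← mul_assoc, ← (Nat.cast_commute m (ρ y)).eq, mul_assoc, mul_assoc, ← map_pow, ← map_pow,
          ← map_mul, ← map_mul]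
        congr 2
        rw [conj_pow]
        group
      rw [mul_assoc, e, ← mul_assoc, h3 _ hy, zero_mul]
  have hkk : ∀ κ ∈ K, ∀ κ' : Module.End (ZMod p) A, (∀ h, ρ h * κ' = κ') → κ * κ' = 0 := by
    rintro κ ⟨h1, h2, h3⟩ κ' h4
    refine LinearMap.ext fun u => ?_
    show κ (κ' u) = 0
    exact h2 _ fun h => LinearMap.congr_fun (h4 h) u
  have hw1 : ∀ w ∈ commutator G, ∀ h, ρ h * (ρ w - 1) = ρ w - 1 := by
    intro w hw h
    refine LinearMap.ext fun u => ?_
    show ρ h (ρ w u - u) = ρ w u - u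
    exact hD w hw h u
  have hw2 : ∀ w : G, ∀ u, (∀ h, ρ h u = u) → (ρ w - 1) u = 0 := by
    intro w u hu
    rw [LinearMap.sub_apply, hu w]
    exact sub_self u
  have hKw : ∀ w ∈ commutator G, ρ w - 1 ∈ K := by
    intro w hw
    refine ⟨hw1 w hw, hw2 w, fun h hh => ?_⟩
    obtain ⟨κ, hκ⟩ : ∃ κ, κ = ρ w - 1 := ⟨_, rfl⟩
    obtain ⟨H, hH⟩ : ∃ H, H = ρ h := ⟨_, rfl⟩
    have k1 : H * κ = κ := by rw [hH, hκ]; exact hw1 w hw h
    have k2 : κ * κ = 0 := by
      refine LinearMap.ext fun u => ?_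
      show κ (κ u) = 0
      rw [hκ]
      exact hw2 w _ fun h => LinearMap.congr_fun (hw1 w hw h) u
    have hwh : w * h ∉ M := fun h4 => hh (by
      have := M.mul_mem (M.inv_mem (hDM hw)) h4
      rwa [inv_mul_cancel_left] at this)
    have h5 := hNz _ hwh
    have h6 := hNz _ hh
    have h7 : ∀ i : ℕ, ρ (w * h) ^ i = H ^ i + κ * ∑ m ∈ range i, H ^ (m + 1) := by
      intro i
      have e0 : ρ (w * h) = (1 + κ) * H := by
        rw [map_mul, hκ, hH]
        congr 1
        abel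
      induction i with
      | zero => simp
      | succ i ih =>
        rw [pow_succ', ih, e0, Finset.sum_range_succ]
        have e : (1 + κ) * H * (H ^ i + κ * ∑ m ∈ range i, H ^ (m + 1)) =
            H * H ^ i + κ * (H * H ^ i) + (H * κ) * (∑ m ∈ range i, H ^ (m + 1)) +
              κ * (H * κ) * (∑ m ∈ range i, H ^ (m + 1)) := by
          noncomm_ring
        rw [e, k1, k2, ← pow_succ']
        noncomm_ring
    rw [Finset.sum_congr rfl fun i _ => h7 i, Finset.sum_add_distrib, ← Finset.mul_sum, hH, h6,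
      zero_add, ← hH] at h5
    have h8 := sumD H p
    rw [hp0, zero_mul, add_eq_zero_iff_eq_neg'] at h8
    rw [← hκ, ← hH, h8, mul_neg, h5, neg_zero]
  have dat : Rng.Dat p (ρ g₀) (ρ x) K := by
    refine ⟨fun κ hκ => hκ.1 _, fun κ hκ => hκ.1 _, fun κ hκ => hr κ hκ _, fun κ hκ => hr κ hκ _,
      fun κ hκ κ' hκ' => hkk κ hκ κ' hκ'.1, ?_, ?_, ?_, ?_⟩
    · have e : ρ x * ρ g₀ - ρ g₀ * ρ x = (ρ ⁅x, g₀⁆ - 1) * ρ (g₀ * x) := by
        rw [sub_mul, one_mul, ← map_mul, ← map_mul, ← map_mul]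
        congr 2
        rw [commutatorElement_def]
        group
      rw [e]
      exact hr _ (hKw _ (Subgroup.commutator_mem_commutator (Subgroup.mem_top _)
        (Subgroup.mem_top _))) _
    · rw [← map_pow]
      exact hKw _ hxp
    · intro k _
      have h1 : g₀ * x ^ k ∉ M := fun h => hg₀ (by
        have := M.mul_mem h (M.inv_mem (M.pow_mem hx k))
        rwa [mul_inv_cancel_right] at this)
      have := hNz _ h1
      rwa [map_mul, map_pow] at this
    · intro k _ κ hκ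
      have h1 : g₀ * x ^ k ∉ M := fun h => hg₀ (by
        have := M.mul_mem h (M.inv_mem (M.pow_mem hx k))
        rwa [mul_inv_cancel_right] at this)
      have := hκ.2.2 _ h1
      rwa [map_mul, map_pow] at this
  exact dat.main

theorem core {p : ℕ} [Fact p.Prime] {Γ G A : Type*} [Group Γ] [Group G] [AddCommGroup A]
    [Module (ZMod p) A]
    (j : Multiplicative A →* Γ) (hj : ∀ u v : A, j (.ofAdd u) = j (.ofAdd v) → u = v) (δ : G →* Γ)
    (c : G → (A →+ A)) (hc : ∀ h u, j (.ofAdd (c h u)) = δ h * j (.ofAdd u) * (δ h)⁻¹)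
    (M : Subgroup G) (hMn : M.Normal)
    (hD : ∀ w ∈ commutator G, ∀ (u : A) (h : G),
      δ h * (δ w * j (.ofAdd u) * (δ w)⁻¹ * (j (.ofAdd u))⁻¹) =
        (δ w * j (.ofAdd u) * (δ w)⁻¹ * (j (.ofAdd u))⁻¹) * δ h)
    (hDM : commutator G ≤ M)
    (hout : ∀ h, h ∉ M → ∀ u : A, (j (.ofAdd u) * δ h) ^ p = 1)
    (g₀ x : G) (hg₀ : g₀ ∉ M) (hx : x ∈ M) (hxp : x ^ p ∈ commutator G) :
    ∀ u : A, (j (.ofAdd u) * δ x) ^ p = (δ x) ^ p := by
  have hρ : ∃ ρ : G →* Module.End (ZMod p) A,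
      ∀ (h : G) (u : A), j (.ofAdd ((ρ h) u)) = δ h * j (.ofAdd u) * (δ h)⁻¹ := by
    refine ⟨{ toFun := fun h => (c h).toZModLinearMap p
              map_one' := ?_
              map_mul' := ?_ }, ?_⟩
    · refine LinearMap.ext fun u => hj _ _ ?_
      show j (.ofAdd (c 1 u)) = j (.ofAdd u)
      rw [hc]
      simp
    · intro a b
      refine LinearMap.ext fun u => hj _ _ ?_
      show j (.ofAdd (c (a * b) u)) = j (.ofAdd (c a (c b u)))
      rw [hc, hc, hc, map_mul]
      group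
    · intro h u
      exact hc h u
  obtain ⟨ρ, hρ⟩ := hρ
  have hsum : ∀ (h : G) (n : ℕ) (u : A),
      (j (.ofAdd u) * δ h) ^ n = j (.ofAdd ((∑ i ∈ range n, ρ h ^ i) u)) * (δ h) ^ n := by
    intro h n u
    induction n with
    | zero => simp
    | succ n ih =>
      rw [pow_succ, ih, Finset.sum_range_succ, LinearMap.add_apply, ofAdd_add, map_mul,
        ← map_pow ρ, hρ, map_pow]
      group
  have hNz : ∀ h, h ∉ M → ∑ i ∈ range p, ρ h ^ i = 0 := by
    intro h hh
    refine LinearMap.ext fun u => hj _ _ ?_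
    have h1 := hsum h p u
    have h2 := hout h hh 0
    rw [ofAdd_zero, map_one, one_mul] at h2
    rw [hout h hh _, h2, mul_one] at h1
    rw [← h1]
    simp
  have hmain := core_mod ρ M hMn (fun w hw h u => hj _ _ (by
    have e1 : j (.ofAdd (ρ w u - u)) = δ w * j (.ofAdd u) * (δ w)⁻¹ * (j (.ofAdd u))⁻¹ := by
      rw [ofAdd_sub, map_div, div_eq_mul_inv, hρ]
    rw [hρ, e1, hD w hw _ h, mul_inv_cancel_right])) hDM hNz g₀ x hg₀ hx hxp
  intro u
  have h1 := hsum x p u
  rw [hmain] at h1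
  rw [h1]
  simp

end Pool.Agent.K6.H91.MP
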