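import Pool.Agent.K6.H91.MP.Met
import Pool.Agent.K6.H91.MP.Core

set_option autoImplicit false

/-!
# Transitive p-groups all of whose derangements have order p: commutators which are central modulo the centre
-/

namespace Pool.Agent.K6.H91.MP

open Finset
open scoped commutatorElement

section

variable {G : Type*} [Group G]

theorem pow_class2 (a b c : G) (hc : ∀ g, c * g = g * c) (h : b * a = c * (a * b)) (n : ℕ) :
    (a * b) ^ n = c ^ (n.choose 2) * (a ^ n * b ^ n) := by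
  have hcn : ∀ (m : ℕ) (g : G), c ^ m * g = g * c ^ m := fun m g =>
    ((show Commute c g from hc g).pow_left m)
  have h1 : ∀ m : ℕ, b ^ m * a = c ^ m * (a * b ^ m) := by
    intro m
    induction m with
    | zero => simp
    | succ m ih =>
      rw [pow_succ', mul_assoc, ih, ← mul_assoc, ← hcn m b, mul_assoc, ← mul_assoc b a, h, pow_succ c,
        mul_assoc, mul_assoc, mul_assoc]
  induction n with
  | zero => simp
  | succ n ih =>
    have e : (n + 1).choose 2 = n.choose 2 + n := by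
      rw [Nat.choose_succ_succ' n 1, Nat.choose_one_right, add_comm]
    rw [pow_succ, ih, e, pow_add]
    have : c ^ n.choose 2 * (a ^ n * b ^ n) * (a * b) = c ^ n.choose 2 * (a ^ n * (b ^ n * a) * b) := by
      simp only [mul_assoc]
    rw [this, h1, ← mul_assoc (a ^ n), ← hcn n (a ^ n), pow_succ a, pow_succ b]
    simp only [mul_assoc]

/-- elements of the commutator subgroup whose commutators with the commutator subgroup are central -/
def wder (G : Type*) [Group G] : Subgroup G where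
  carrier := {w | w ∈ commutator G ∧ ∀ u ∈ commutator G, u * w * u⁻¹ * w⁻¹ ∈ Subgroup.center G}
  one_mem' := ⟨Subgroup.one_mem _, fun u _ => by simp [Subgroup.one_mem]⟩
  mul_mem' := by
    rintro w w' ⟨h1, h2⟩ ⟨h3, h4⟩
    refine ⟨Subgroup.mul_mem _ h1 h3, fun u hu => ?_⟩
    have e : u * (w * w') * u⁻¹ * (w * w')⁻¹ =
        (u * w * u⁻¹ * w⁻¹) * (w * (u * w' * u⁻¹ * w'⁻¹) * w⁻¹) := by group
    rw [e]
    refine Subgroup.mul_mem _ (h2 u hu) ?_
    exact (inferInstance : (Subgroup.center G).Normal).conj_mem _ (h4 u hu) w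
  inv_mem' := by
    rintro w ⟨h1, h2⟩
    refine ⟨Subgroup.inv_mem _ h1, fun u hu => ?_⟩
    have e : u * w⁻¹ * u⁻¹ * w⁻¹⁻¹ = w⁻¹ * (u * w * u⁻¹ * w⁻¹)⁻¹ * w⁻¹⁻¹ := by group
    rw [e]
    exact (inferInstance : (Subgroup.center G).Normal).conj_mem _
      (Subgroup.inv_mem _ (h2 u hu)) w⁻¹

theorem mem_wder {w : G} : w ∈ wder G ↔
    w ∈ commutator G ∧ ∀ u ∈ commutator G, u * w * u⁻¹ * w⁻¹ ∈ Subgroup.center G := Iff.rfl

instance wder_normal (G : Type*) [Group G] : (wder G).Normal := ⟨by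
  rintro w ⟨h1, h2⟩ g
  refine ⟨(inferInstance : (commutator G).Normal).conj_mem _ h1 g, fun u hu => ?_⟩
  have e : u * (g * w * g⁻¹) * u⁻¹ * (g * w * g⁻¹)⁻¹ =
      g * ((g⁻¹ * u * g) * w * (g⁻¹ * u * g)⁻¹ * w⁻¹) * g⁻¹ := by group
  rw [e]
  refine (inferInstance : (Subgroup.center G).Normal).conj_mem _ (h2 _ ?_) g
  have := (inferInstance : (commutator G).Normal).conj_mem _ hu g⁻¹
  simpa using this⟩

theorem cen {c : G} (hc : c ∈ Subgroup.center G) (g : G) : c * g = g * c :=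
  (Subgroup.mem_center_iff.1 hc g).symm

/-- the group part: pairs `(a, b)` with `a b` central -/
theorem sym_pow {p : ℕ} [Fact p.Prime] (hW : ∀ w ∈ wder G, w ^ p = 1)
    (M : Subgroup G) (hMn : M.Normal) (hDM : commutator G ≤ M)
    (hout : ∀ y : G, y ∉ M → y ^ p = 1) (g₀ x : G) (hg₀ : g₀ ∉ M) (hx : x ∈ M)
    (hxp : x ^ p ∈ commutator G) : ∀ v ∈ wder G, (v * x) ^ p = (v⁻¹ * x) ^ p := by
  have hcn := (inferInstance : (Subgroup.center G).Normal)
  let P : Subgroup (G × G) :=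
    { carrier := {q | q.1 ∈ wder G ∧ q.2 ∈ wder G ∧ q.1 * q.2 ∈ Subgroup.center G}
      one_mem' := ⟨Subgroup.one_mem _, Subgroup.one_mem _, by simp [Subgroup.one_mem]⟩
      mul_mem' := by
        rintro ⟨a, b⟩ ⟨a', b'⟩ ⟨h1, h2, h3⟩ ⟨h4, h5, h6⟩
        refine ⟨Subgroup.mul_mem _ h1 h4, Subgroup.mul_mem _ h2 h5, ?_⟩
        simp only at h1 h2 h3 h4 h5 h6
        show a * a' * (b * b') ∈ Subgroup.center G
        have e : a * a' * (b * b') = (a * b) * (b⁻¹ * a' * b⁻¹⁻¹ * a'⁻¹) * (a' * b') := by group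
        rw [e]
        exact Subgroup.mul_mem _ (Subgroup.mul_mem _ h3 (h4.2 _ (Subgroup.inv_mem _ h2.1))) h6
      inv_mem' := by
        rintro ⟨a, b⟩ ⟨h1, h2, h3⟩
        refine ⟨Subgroup.inv_mem _ h1, Subgroup.inv_mem _ h2, ?_⟩
        simp only at h1 h2 h3
        show a⁻¹ * b⁻¹ ∈ Subgroup.center G
        have e : a⁻¹ * b⁻¹ = b * (a * b)⁻¹ * b⁻¹ := by group
        rw [e]
        exact hcn.conj_mem _ (Subgroup.inv_mem _ h3) b }
  let dg : G →* G × G := MonoidHom.prod (MonoidHom.id G) (MonoidHom.id G)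
  have hdg : ∀ g, dg g = (g, g) := fun g => rfl
  obtain ⟨T, hT⟩ : ∃ T : Subgroup (G × G), ∀ q, q ∈ T ↔ q.1 ∈ Subgroup.center G ∧ q.1 = q.2 := by
    refine ⟨(Subgroup.center G).map dg, fun q => ?_⟩
    rw [Subgroup.mem_map]
    constructor
    · rintro ⟨z, hz, rfl⟩
      exact ⟨hz, rfl⟩
    · rintro ⟨h1, h2⟩
      exact ⟨q.1, h1, Prod.ext rfl h2⟩
  haveI hTn : T.Normal := ⟨by
    rintro ⟨a, b⟩ hab ⟨g, h⟩
    obtain ⟨h1, h2⟩ := (hT _).1 hab
    simp only at h1 h2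
    subst h2
    refine (hT _).2 ⟨hcn.conj_mem _ h1 g, ?_⟩
    show g * a * g⁻¹ = h * a * h⁻¹
    rw [← cen h1 g, ← cen h1 h, mul_inv_cancel_right, mul_inv_cancel_right]⟩
  let π : (G × G) →* (G × G) ⧸ T := QuotientGroup.mk' T
  have hπ : ∀ q q' : G × G, π q = π q' ↔ q⁻¹ * q' ∈ T := fun q q' => QuotientGroup.eq
  let δ : G →* (G × G) ⧸ T := π.comp dg
  have hδ : ∀ h, δ h = π (h, h) := fun h => rfl
  let B : Subgroup ((G × G) ⧸ T) := P.map π
  have hBc : ∀ x ∈ B, ∀ y ∈ B, x * y = y * x := by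
    rintro _ ⟨⟨a, b⟩, ⟨h1, h2, h3⟩, rfl⟩ _ ⟨⟨a', b'⟩, ⟨h4, h5, h6⟩, rfl⟩
    simp only at h1 h2 h3 h4 h5 h6
    rw [← map_mul, ← map_mul, hπ, hT]
    have k1 : a'⁻¹ * a⁻¹ * (a' * a) ∈ Subgroup.center G := by
      have e : a'⁻¹ * a⁻¹ * (a' * a) = a'⁻¹ * (a⁻¹ * a' * a⁻¹⁻¹ * a'⁻¹) * a'⁻¹⁻¹ := by group
      rw [e]
      exact hcn.conj_mem _ (h4.2 _ (Subgroup.inv_mem _ h1.1)) _
    refine ⟨?_, ?_⟩
    · show (a * a')⁻¹ * (a' * a) ∈ Subgroup.center G
      rw [mul_inv_rev]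
      exact k1
    · show (a * a')⁻¹ * (a' * a) = (b * b')⁻¹ * (b' * b)
      obtain ⟨z, hz⟩ : ∃ z, z = a * b := ⟨_, rfl⟩
      obtain ⟨z', hz'⟩ : ∃ z', z' = a' * b' := ⟨_, rfl⟩
      rw [← hz] at h3
      rw [← hz'] at h6
      have eb : b = a⁻¹ * z := by rw [hz]; group
      have eb' : b' = a'⁻¹ * z' := by rw [hz']; group
      obtain ⟨c, hc⟩ : ∃ c, c = a'⁻¹ * a⁻¹ * (a' * a) := ⟨_, rfl⟩
      rw [← hc] at k1
      have k2 : a' * a = a * a' * c := by rw [hc]; group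
      have k3 : (b * b')⁻¹ * (b' * b) = c := by
        rw [inv_mul_eq_iff_eq_mul, eb, eb']
        have e1 : a'⁻¹ * z' * (a⁻¹ * z) = a'⁻¹ * a⁻¹ * (z * z') := by
          rw [mul_assoc, ← mul_assoc z', cen h6 a⁻¹, mul_assoc a⁻¹, cen h6 z]
          simp only [mul_assoc]
        have e2 : a⁻¹ * z * (a'⁻¹ * z') * c = a⁻¹ * a'⁻¹ * c * (z * z') := by
          rw [mul_assoc, mul_assoc, mul_assoc a'⁻¹, cen h6 c, ← mul_assoc z, cen h3 a'⁻¹,
            mul_assoc a'⁻¹, ← mul_assoc z, cen h3 c]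
          simp only [mul_assoc]
        rw [e1, e2]
        congr 1
        rw [← mul_inv_rev, ← mul_inv_rev, eq_comm, ← cen k1, mul_inv_eq_iff_eq_mul,
          eq_inv_mul_iff_mul_eq]
        exact k2.symm
      rw [k3, mul_inv_rev, hc]
  have hBp : ∀ x ∈ B, x ^ p = 1 := by
    rintro _ ⟨⟨a, b⟩, ⟨h1, h2, h3⟩, rfl⟩
    simp only at h1 h2
    rw [← map_pow, Prod.pow_mk, hW a h1, hW b h2]
    exact map_one π
  letI : CommGroup B := { (inferInstance : Group B) with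
    mul_comm := fun x y => Subtype.ext (hBc x x.2 y y.2) }
  have hmod : ∀ u : Additive B, p • u = 0 := fun u => by
    apply Additive.toMul.injective
    exact Subtype.ext (hBp _ u.toMul.2)
  have hcj : ∀ h, ∀ u ∈ B, δ h * u * (δ h)⁻¹ ∈ B := by
    rintro h _ ⟨⟨a, b⟩, ⟨h1, h2, h3⟩, rfl⟩
    simp only at h1 h2 h3
    refine ⟨(h * a * h⁻¹, h * b * h⁻¹), ⟨(wder_normal G).conj_mem _ h1 h,
      (wder_normal G).conj_mem _ h2 h, ?_⟩, rfl⟩
    show h * a * h⁻¹ * (h * b * h⁻¹) ∈ Subgroup.center G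
    have e : h * a * h⁻¹ * (h * b * h⁻¹) = h * (a * b) * h⁻¹ := by group
    rw [e]
    exact hcn.conj_mem _ h3 h
  let j : Multiplicative (Additive B) →* (G × G) ⧸ T :=
    { toFun := fun u => ((u.toAdd.toMul : B) : (G × G) ⧸ T)
      map_one' := rfl
      map_mul' := fun _ _ => rfl }
  let c : G → (Additive B →+ Additive B) := fun h => MonoidHom.toAdditive
    { toFun := fun u => ⟨δ h * u * (δ h)⁻¹, hcj h u u.2⟩
      map_one' := Subtype.ext (by simp)
      map_mul' := fun u v => Subtype.ext (by simp [mul_assoc]) }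
  have hcore := @core p _ ((G × G) ⧸ T) G (Additive B) _ _ _ (AddCommGroup.zmodModule hmod) j
    (fun u v h => Additive.toMul.injective (Subtype.ext h)) δ c (fun h u => rfl) M hMn
    (by
      intro w hw u h
      obtain ⟨⟨_, ⟨⟨a, b⟩, ⟨h1, h2, h3⟩, rfl⟩⟩, rfl⟩ : ∃ u' : B, u = Additive.ofMul u' := ⟨u.toMul, rfl⟩
      simp only at h1 h2 h3
      show π (h, h) * (π (w, w) * π (a, b) * (π (w, w))⁻¹ * (π (a, b))⁻¹) =
        (π (w, w) * π (a, b) * (π (w, w))⁻¹ * (π (a, b))⁻¹) * π (h, h)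
      rw [← map_inv, ← map_inv, ← map_mul, ← map_mul, ← map_mul, ← map_mul, ← map_mul]
      congr 1
      refine Prod.ext ?_ ?_
      · show h * (w * a * w⁻¹ * a⁻¹) = (w * a * w⁻¹ * a⁻¹) * h
        exact (cen (h1.2 w hw) h).symm
      · show h * (w * b * w⁻¹ * b⁻¹) = (w * b * w⁻¹ * b⁻¹) * h
        exact (cen (h2.2 w hw) h).symm)
    hDM
    (by
      intro h hh u
      obtain ⟨⟨_, ⟨⟨a, b⟩, ⟨h1, h2, h3⟩, rfl⟩⟩, rfl⟩ : ∃ u' : B, u = Additive.ofMul u' := ⟨u.toMul, rfl⟩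
      simp only at h1 h2 h3
      show (π (a, b) * π (h, h)) ^ p = 1
      have hM : ∀ a ∈ wder G, (a * h) ^ p = 1 := fun a ha => hout _ fun h4 => hh (by
        have := M.mul_mem (M.inv_mem (hDM ha.1)) h4
        rwa [inv_mul_cancel_left] at this)
      rw [← map_mul, ← map_pow, Prod.mk_mul_mk, Prod.pow_mk, hM a h1, hM b h2]
      exact map_one π)
    g₀ x hg₀ hx hxp
  intro v hv
  have hu : π (v, v⁻¹) ∈ B := ⟨(v, v⁻¹), ⟨hv, Subgroup.inv_mem _ hv, by simp [Subgroup.one_mem]⟩, rfl⟩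
  have h1 := hcore (Additive.ofMul ⟨π (v, v⁻¹), hu⟩)
  have h2 : (π (v, v⁻¹) * π (x, x)) ^ p = (π (x, x)) ^ p := h1
  rw [← map_mul, ← map_pow, ← map_pow, Prod.mk_mul_mk, Prod.pow_mk, Prod.pow_mk, hπ, hT] at h2
  have h3 : ((v * x) ^ p)⁻¹ * x ^ p = ((v⁻¹ * x) ^ p)⁻¹ * x ^ p := h2.2
  exact inv_injective (mul_right_cancel h3)

end

section

variable {p : ℕ} {G Ω : Type*} [Group G] [Finite G] [MulAction G Ω] [FaithfulSMul G Ω]
  [MulAction.IsPretransitive G Ω]

/-- `wder G` has exponent `p` if `p` is odd -/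
theorem wder_exp (hp : p.Prime) (hp2 : p ≠ 2) (hs : Setting p G Ω) : ∀ w ∈ wder G, w ^ p = 1 := by
  haveI : Fact p.Prime := ⟨hp⟩
  haveI : Group.IsNilpotent G := hs.pgroup.isNilpotent
  have hZ : ∀ z ∈ Subgroup.center G, z ^ p = 1 :=
    abelian_exp hp hs (Subgroup.center G) fun x hx y _ => cen hx y
  have hmul : ∀ a ∈ wder G, ∀ b ∈ wder G, (a * b) ^ p = a ^ p * b ^ p := by
    intro a ha b hb
    have h1 := ha.2 b hb.1
    rw [pow_class2 a b _ (cen h1) (by group) p]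
    have h2 : p ∣ p.choose 2 := hp.dvd_choose_self (by norm_num) (by
      have := hp.two_le
      omega)
    obtain ⟨k, hk⟩ := h2
    rw [hk, pow_mul, hZ _ h1, one_pow, one_mul]
  intro v hv
  by_contra hne
  let N : Subgroup G :=
    { carrier := {w | ∃ u ∈ wder G, u ^ p = w}
      mul_mem' := by
        rintro _ _ ⟨u, hu, rfl⟩ ⟨u', hu', rfl⟩
        exact ⟨u * u', (wder G).mul_mem hu hu', hmul u hu u' hu'⟩
      one_mem' := ⟨1, (wder G).one_mem, one_pow p⟩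
      inv_mem' := by
        rintro _ ⟨u, hu, rfl⟩
        exact ⟨u⁻¹, (wder G).inv_mem hu, inv_pow u p⟩ }
  haveI : N.Normal := ⟨by
    rintro _ ⟨u, hu, rfl⟩ g
    exact ⟨g * u * g⁻¹, (wder_normal G).conj_mem u hu g, conj_pow⟩⟩
  obtain ⟨z, ⟨u, hu, rfl⟩, hz1, hz2⟩ := meets_center N (y := v ^ p) ⟨v, hv, rfl⟩ hne
  exact hz1 (central_pow hs u hz2)

theorem wder_pow (hp : p.Prime) (hp2 : p ≠ 2) (hs : Setting p G Ω) (g : G) {v : G} (hv : v ∈ wder G) :
    (v * g) ^ p = g ^ p := by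
  classical
  haveI : Fact p.Prime := ⟨hp⟩
  haveI : Group.IsNilpotent G := hs.pgroup.isNilpotent
  have one_of : ∀ y : G, (∀ x : Ω, y • x = x) → y = 1 := fun y hy =>
    FaithfulSMul.eq_of_smul_eq_smul (α := Ω) fun x => by rw [hy x, one_smul]
  by_cases hne : Nonempty Ω
  swap
  · rw [one_of g fun x => (hne ⟨x⟩).elim, one_of v fun x => (hne ⟨x⟩).elim, one_mul]
  obtain ⟨ω⟩ := hne
  rcases eq_top_or_exists_le_coatom (MulAction.stabilizer G ω) with htop | ⟨M, hM, hHM⟩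
  · have hfix : ∀ y : G, y • ω = ω := fun y => by
      have : y ∈ MulAction.stabilizer G ω := by rw [htop]; exact Subgroup.mem_top y
      exact this
    have hone : ∀ y : G, y = 1 := fun y => one_of y fun x => by
      obtain ⟨h, rfl⟩ := MulAction.exists_smul_eq G ω x
      rw [hfix h, hfix y]
    rw [hone v, one_mul]
  obtain ⟨hMn, hcM⟩ := commutator_le_coatom hM
  have hout : ∀ y : G, y ∉ M → y ^ p = 1 := by
    intro y hy
    rw [← hs.der y ?_]
    · exact pow_orderOf_eq_one y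
    · intro x hx
      apply hy
      obtain ⟨h, rfl⟩ := MulAction.exists_smul_eq G ω x
      have h1 : h⁻¹ * y * h ∈ M := by
        apply hHM
        rw [MulAction.mem_stabilizer_iff, mul_smul, mul_smul, hx, inv_smul_smul]
      have h2 := hMn.conj_mem _ h1 h
      have h3 : h * (h⁻¹ * y * h) * h⁻¹ = y := by group
      rwa [h3] at h2
  obtain ⟨g₀, hg₀⟩ : ∃ g₀, g₀ ∉ M := by
    by_contra h
    push Not at h
    exact hM.1 (eq_top_iff.2 fun y _ => h y)
  have hDM : commutator G ≤ M := by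
    rw [commutator_def, Subgroup.commutator_le]
    exact fun x _ y _ => hcM x y
  by_cases hg : g ∉ M
  · rw [hout g hg, hout (v * g)]
    intro h
    apply hg
    have := M.mul_mem (M.inv_mem (hDM hv.1)) h
    rwa [inv_mul_cancel_left] at this
  rw [not_not] at hg
  have hW := wder_exp hp hp2 hs
  have hpD : ∀ y ∈ M, y ^ p ∈ commutator G := by
    intro y hy
    have h1 : (g₀ * y) ^ p = 1 := hout _ fun h => hg₀ (by
      have := M.mul_mem h (M.inv_mem hy)
      rwa [mul_inv_cancel_right] at this)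
    have h2 := congrArg (Abelianization.of (G := G)) h1
    rw [map_pow, map_mul, mul_pow, ← map_pow, ← map_pow, hout g₀ hg₀, map_one, one_mul] at h2
    rw [← Abelianization.ker_of]
    exact h2
  have hsym : ∀ u ∈ wder G, (u * (u * g)) ^ p = g ^ p := by
    intro u hu
    have h1 : u * g ∈ M := M.mul_mem (hDM hu.1) hg
    have h2 := sym_pow hW M hMn hDM hout g₀ (u * g) hg₀ h1 (hpD _ h1) u hu
    rwa [inv_mul_cancel_left] at h2
  have hodd : Odd p := hp.odd_of_ne_two hp2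
  obtain ⟨k, hk⟩ := hodd
  have h3 := hsym (v ^ (k + 1)) ((wder G).pow_mem hv _)
  rw [← mul_assoc, ← pow_add] at h3
  have e : k + 1 + (k + 1) = p + 1 := by omega
  rw [e, pow_succ, hW v hv, one_mul] at h3
  exact h3

theorem near_center2 (hp : p.Prime) (hp2 : p ≠ 2) (hs : Setting p G Ω) {g : G}
    (hg : ∀ y, ⁅g, y⁆ ∈ wder G) : g ^ p = 1 := by
  refine central_pow hs g fun y => ?_
  have h1 : ⁅y, g⁆ ∈ wder G := by
    rw [← commutatorElement_inv]
    exact (wder G).inv_mem (hg y)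
  have h2 := wder_pow hp hp2 hs g h1
  have h3 : ⁅y, g⁆ * g = y * g * y⁻¹ := by
    rw [commutatorElement_def]
    group
  rw [h3, conj_pow] at h2
  exact (mul_inv_eq_iff_eq_mul.1 h2).symm

end

end Pool.Agent.K6.H91.MP
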