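import Mathlib

set_option autoImplicit false

/-!
# Transitive metabelian p-groups all of whose derangements have order p
-/

namespace Pool.Agent.K6.H91.MP

open Finset
open scoped commutatorElement

/-- products over `range p` and over `ZMod p` -/
theorem prod_range_zmod {p : ℕ} [NeZero p] {W : Type*} [CommMonoid W] (f : ℕ → W) :
    ∏ i ∈ range p, f i = ∏ i : ZMod p, f i.val := by
  refine Finset.prod_bij' (fun i _ => (i : ZMod p)) (fun i _ => i.val) ?_ ?_ ?_ ?_ ?_
  · intro i _; exact mem_univ _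
  · intro i _; exact mem_range.2 (ZMod.val_lt i)
  · intro i hi; exact ZMod.val_cast_of_lt (mem_range.1 hi)
  · intro i _; exact ZMod.natCast_zmod_val i
  · intro i hi; rw [ZMod.val_cast_of_lt (mem_range.1 hi)]

/-- The norms of the `p + 1` subgroups of a group `⟨a, b⟩` of order `p ^ 2` acting on an abelian group
of exponent `p`: if all but one of them vanish then the last one vanishes. -/
theorem norm_last {p : ℕ} (hp : p.Prime) {W : Type*} [CommGroup W] (a b : MulAut W)
    (hab : a * b = b * a) (hb : b ^ p = 1) (hW : ∀ w : W, w ^ p = 1)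
    (h : ∀ (k : ℕ) (w : W), ∏ i ∈ range p, ((a * b ^ k) ^ i) w = 1) (w : W) :
    ∏ j ∈ range p, (b ^ j) w = 1 := by
  haveI : Fact p.Prime := ⟨hp⟩
  have hcomm : Commute a b := hab
  obtain ⟨F, hF⟩ : ∃ F : ZMod p → ZMod p → W, ∀ i j, F i j = (a ^ i.val * b ^ j.val) w :=
    ⟨_, fun _ _ => rfl⟩
  have h1 : ∀ k : ZMod p, ∏ i : ZMod p, F i (k * i) = 1 := by
    intro k
    rw [← h k.val w, prod_range_zmod (fun i => ((a * b ^ k.val) ^ i) w)]
    refine Finset.prod_congr rfl fun i _ => ?_
    rw [hF, (hcomm.pow_right k.val).mul_pow, ← pow_mul]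
    have : b ^ (k * i).val = b ^ (k.val * i.val) := by
      rw [ZMod.val_mul]
      exact (pow_eq_pow_mod _ hb).symm
    rw [this]
  have h2 : ∏ i : ZMod p, ∏ k : ZMod p, F i (k * i) = 1 := by
    rw [Finset.prod_comm]
    exact Finset.prod_eq_one fun k _ => h1 k
  have h3 : ∏ i : ZMod p, ∏ j : ZMod p, F i j = 1 := by
    have e1 : ∀ i : ZMod p, ∏ j : ZMod p, F i j = (a ^ i.val) (∏ j : ZMod p, (b ^ j.val) w) := by
      intro i
      rw [map_prod]
      refine Finset.prod_congr rfl fun j _ => ?_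
      rw [hF]
      rfl
    rw [Finset.prod_congr rfl fun i _ => e1 i]
    have e2 := h 0 (∏ j : ZMod p, (b ^ j.val) w)
    rw [prod_range_zmod (fun i => ((a * b ^ 0) ^ i) (∏ j : ZMod p, (b ^ j.val) w))] at e2
    simpa using e2
  have h4 : ∀ i : ZMod p, i ≠ 0 → ∏ k : ZMod p, F i (k * i) = ∏ j : ZMod p, F i j := by
    intro i hi
    exact Equiv.prod_comp (Equiv.mulRight₀ i hi) (fun j => F i j)
  rw [← Finset.mul_prod_erase _ _ (mem_univ (0 : ZMod p))] at h2 h3
  have h5 : ∏ k : ZMod p, F 0 (k * 0) = 1 := by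
    simp only [mul_zero]
    rw [Finset.prod_const, Finset.card_univ, ZMod.card]
    exact hW _
  rw [h5, one_mul] at h2
  have h6 : ∏ i ∈ univ.erase (0 : ZMod p), ∏ j : ZMod p, F i j = 1 := by
    rw [← h2]
    exact Finset.prod_congr rfl fun i hi => (h4 i (ne_of_mem_erase hi)).symm
  rw [h6, mul_one] at h3
  rw [prod_range_zmod (fun j => (b ^ j) w), ← h3]
  refine Finset.prod_congr rfl fun j _ => ?_
  rw [hF]
  simp

section

variable {G : Type*} [Group G]

/-- a nontrivial normal subgroup of a nilpotent group meets the centre -/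
theorem meets_center [Group.IsNilpotent G] (N : Subgroup G) [hN : N.Normal] {y : G} (hy : y ∈ N)
    (hy1 : y ≠ 1) : ∃ z ∈ N, z ≠ 1 ∧ ∀ g : G, z * g = g * z := by
  classical
  have hex : ∃ n, ∃ z ∈ N, z ≠ 1 ∧ z ∈ Subgroup.upperCentralSeries G n := by
    obtain ⟨n, hn⟩ := Group.IsNilpotent.nilpotent' (G := G)
    exact ⟨n, y, hy, hy1, by rw [hn]; exact Subgroup.mem_top y⟩
  obtain ⟨z, hz, hz1, hzn⟩ := Nat.find_spec hex
  refine ⟨z, hz, hz1, fun g => ?_⟩
  have hmin := fun m => Nat.find_min hex (m := m)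
  cases hn : Nat.find hex with
  | zero =>
    rw [hn] at hzn
    exact absurd (by simpa using hzn) hz1
  | succ n =>
    rw [hn] at hzn
    have h1 := (Subgroup.mem_upperCentralSeries_succ_iff).1 hzn g
    by_contra hne
    refine hmin n (by omega) ⟨z * g * z⁻¹ * g⁻¹, ?_, ?_, h1⟩
    · have e : z * g * z⁻¹ * g⁻¹ = z * (g * z⁻¹ * g⁻¹) := by group
      rw [e]
      exact N.mul_mem hz (hN.conj_mem _ (N.inv_mem hz) g)
    · intro h2
      apply hne
      have : z * g * z⁻¹ * g⁻¹ * (g * z) = g * z := by rw [h2, one_mul]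
      rw [← this]
      group

/-- maximal subgroups of nilpotent groups contain the commutator subgroup -/
theorem commutator_le_coatom [Group.IsNilpotent G] {M : Subgroup G} (hM : IsCoatom M) :
    M.Normal ∧ ∀ x y : G, ⁅x, y⁆ ∈ M := by
  have hn : M.Normal :=
    Subgroup.NormalizerCondition.normal_of_coatom M (Group.normalizerCondition_of_isNilpotent) hM
  refine ⟨hn, fun x y => ?_⟩
  haveI := hn
  haveI : Nontrivial (G ⧸ M) := by
    rw [QuotientGroup.nontrivial_iff]
    exact hM.1
  have h1 : Subgroup.center (G ⧸ M) ≠ ⊥ := Group.IsNilpotent.center_ne_bot _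
  have h2 : M < (Subgroup.center (G ⧸ M)).comap (QuotientGroup.mk' M) := by
    refine lt_of_le_of_ne ?_ ?_
    · intro g hg
      rw [Subgroup.mem_comap]
      have : (QuotientGroup.mk' M) g = 1 := (QuotientGroup.eq_one_iff g).2 hg
      rw [this]
      exact Subgroup.one_mem _
    · intro h3
      apply h1
      rw [eq_bot_iff]
      intro q hq
      obtain ⟨g, rfl⟩ := QuotientGroup.mk'_surjective M q
      have h4 : g ∈ (Subgroup.center (G ⧸ M)).comap (QuotientGroup.mk' M) := hq
      rw [← h3] at h4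
      exact (QuotientGroup.eq_one_iff g).2 h4
  have h3 := hM.2 _ h2
  have h4 : (QuotientGroup.mk' M) x ∈ Subgroup.center (G ⧸ M) := by
    have : x ∈ (Subgroup.center (G ⧸ M)).comap (QuotientGroup.mk' M) := by
      rw [h3]; exact Subgroup.mem_top x
    exact this
  have h5 := (Subgroup.mem_center_iff.1 h4) ((QuotientGroup.mk' M) y)
  rw [← QuotientGroup.eq_one_iff]
  show (QuotientGroup.mk' M) ⁅x, y⁆ = 1
  rw [map_commutatorElement, commutatorElement_eq_one_iff_mul_comm]
  exact h5.symm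

end

/-- the setting -/
structure Setting (p : ℕ) (G Ω : Type*) [Group G] [MulAction G Ω] : Prop where
  pgroup : IsPGroup p G
  der : ∀ g : G, (∀ x : Ω, g • x ≠ x) → orderOf g = p

section

variable {p : ℕ} {G Ω : Type*} [Group G] [Finite G] [MulAction G Ω] [FaithfulSMul G Ω]
  [MulAction.IsPretransitive G Ω]

/-- a `p`-th power in the centre is trivial -/
theorem central_pow (hs : Setting p G Ω) (y : G) (hy : ∀ g, y ^ p * g = g * y ^ p) :
    y ^ p = 1 := by
  by_contra hne
  have h1 : ∃ x : Ω, y • x = x := by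
    by_contra h
    push Not at h
    apply hne
    rw [← hs.der y h]
    exact pow_orderOf_eq_one y
  obtain ⟨x, hx⟩ := h1
  have h2 : y ^ p • x = x := (MulAction.stabilizer G x).pow_mem hx p
  apply hne
  refine FaithfulSMul.eq_of_smul_eq_smul (α := Ω) fun x' => ?_
  obtain ⟨g, rfl⟩ := MulAction.exists_smul_eq G x x'
  rw [← mul_smul, hy g, mul_smul, h2, one_smul]

/-- abelian normal subgroups have exponent `p` -/
theorem abelian_exp (hp : p.Prime) (hs : Setting p G Ω) (V : Subgroup G) [hVn : V.Normal]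
    (hVc : ∀ x ∈ V, ∀ y ∈ V, x * y = y * x) : ∀ v ∈ V, v ^ p = 1 := by
  haveI : Fact p.Prime := ⟨hp⟩
  haveI : Group.IsNilpotent G := hs.pgroup.isNilpotent
  intro v hv
  by_contra hne
  let N : Subgroup G :=
    { carrier := {w | ∃ u ∈ V, u ^ p = w}
      mul_mem' := by
        rintro _ _ ⟨u, hu, rfl⟩ ⟨u', hu', rfl⟩
        exact ⟨u * u', V.mul_mem hu hu', (show Commute u u' from hVc u hu u' hu').mul_pow p⟩
      one_mem' := ⟨1, V.one_mem, one_pow p⟩
      inv_mem' := by
        rintro _ ⟨u, hu, rfl⟩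
        exact ⟨u⁻¹, V.inv_mem hu, inv_pow u p⟩ }
  haveI : N.Normal := ⟨by
    rintro _ ⟨u, hu, rfl⟩ g
    exact ⟨g * u * g⁻¹, hVn.conj_mem u hu g, conj_pow⟩⟩
  obtain ⟨z, ⟨u, hu, rfl⟩, hz1, hz2⟩ := meets_center N (y := v ^ p) ⟨v, hv, rfl⟩ hne
  exact hz1 (central_pow hs u hz2)

/-- `p`-th powers are not changed by factors in an abelian normal subgroup which is
centralised by the commutator subgroup -/
theorem mul_pow_eq (hp : p.Prime) (hs : Setting p G Ω) (V : Subgroup G) [hVn : V.Normal]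
    (hVc : ∀ x ∈ V, ∀ y ∈ V, x * y = y * x) (hVD : ∀ x ∈ V, ∀ y ∈ commutator G, x * y = y * x)
    (hVM' : ∀ M : Subgroup G, IsCoatom M → V ≤ M) (g : G) : ∀ v ∈ V, (v * g) ^ p = g ^ p := by
  classical
  haveI : Fact p.Prime := ⟨hp⟩
  haveI : Group.IsNilpotent G := hs.pgroup.isNilpotent
  have one_of : ∀ y : G, (∀ x : Ω, y • x = x) → y = 1 := fun y hy =>
    FaithfulSMul.eq_of_smul_eq_smul (α := Ω) fun x => by rw [hy x, one_smul]
  have hcom : ∀ x y : G, ⁅x, y⁆ ∈ commutator G := fun x y =>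
    Subgroup.commutator_mem_commutator (Subgroup.mem_top _) (Subgroup.mem_top _)
  have hVexp := abelian_exp hp hs V hVc
  intro v₀ hv₀
  by_cases hne : Nonempty Ω
  swap
  · rw [one_of g fun x => (hne ⟨x⟩).elim, one_of v₀ fun x => (hne ⟨x⟩).elim, one_mul]
  obtain ⟨ω⟩ := hne
  rcases eq_top_or_exists_le_coatom (MulAction.stabilizer G ω) with htop | ⟨M, hM, hHM⟩
  · have hfix : ∀ y : G, y • ω = ω := fun y => by
      have : y ∈ MulAction.stabilizer G ω := by rw [htop]; exact Subgroup.mem_top y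
      exact this
    have hone : ∀ y : G, y = 1 := fun y => one_of y fun x => by
      obtain ⟨h, rfl⟩ := MulAction.exists_smul_eq G ω x
      rw [hfix h, hfix y]
    rw [hone v₀, one_mul]
  obtain ⟨hMn, hcM⟩ := commutator_le_coatom hM
  have hout : ∀ y : G, y ∉ M → y ^ p = 1 := by
    intro y hy
    rw [← hs.der y ?_]
    · exact pow_orderOf_eq_one y
    · intro x hx
      apply hy
      obtain ⟨h, rfl⟩ := MulAction.exists_smul_eq G ω x
      have h1 : h⁻¹ * y * h ∈ M := by
        apply hHM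
        rw [MulAction.mem_stabilizer_iff, mul_smul, mul_smul, hx, inv_smul_smul]
      have h2 := hMn.conj_mem _ h1 h
      have h3 : h * (h⁻¹ * y * h) * h⁻¹ = y := by group
      rwa [h3] at h2
  obtain ⟨g₀, hg₀⟩ : ∃ g₀, g₀ ∉ M := by
    by_contra h
    push Not at h
    exact hM.1 (eq_top_iff.2 fun y _ => h y)
  have hVM : V ≤ M := hVM' M hM
  by_cases hg : g ∉ M
  · rw [hout g hg, hout (v₀ * g)]
    intro h
    apply hg
    have := M.mul_mem (M.inv_mem (hVM hv₀)) h
    rwa [inv_mul_cancel_left] at this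
  rw [not_not] at hg
  letI : CommGroup V := { (inferInstance : Group V) with
    mul_comm := fun x y => Subtype.ext (hVc x x.2 y y.2) }
  obtain ⟨c, hc⟩ : ∃ c : G →* MulAut V, ∀ (y : G) (v : V), ((c y v : V) : G) = y * v * y⁻¹ :=
    ⟨MulAut.conjNormal, fun y v => MulAut.conjNormal_apply y v⟩
  have hcV : ∀ u ∈ commutator G, c u = 1 := by
    intro u hu
    refine MulEquiv.ext fun w => Subtype.ext ?_
    rw [hc, ← hVD w w.2 u hu, mul_inv_cancel_right]
    rfl
  have hnorm : ∀ (v : V) (y : G) (n : ℕ),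
      ((v : G) * y) ^ n = ((∏ i ∈ range n, (c y ^ i) v : V) : G) * y ^ n := by
    intro v y n
    induction n with
    | zero => simp
    | succ n ih =>
      rw [pow_succ, ih, Finset.prod_range_succ, Subgroup.coe_mul, ← map_pow, hc]
      group
  have hab : c g₀ * c g = c g * c g₀ := by
    rw [← map_mul, ← map_mul]
    have : g₀ * g = ⁅g₀, g⁆ * (g * g₀) := by rw [commutatorElement_def]; group
    rw [this, map_mul, hcV _ (hcom _ _), one_mul]
  have hgV : g ^ p ∈ commutator G := by
    have h1 : (g₀ * g) ^ p = 1 := hout _ fun h => hg₀ (by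
      have := M.mul_mem h (M.inv_mem hg)
      rwa [mul_inv_cancel_right] at this)
    have h2 := congrArg (Abelianization.of (G := G)) h1
    rw [map_pow, map_mul, mul_pow, ← map_pow, ← map_pow, hout g₀ hg₀, map_one, one_mul] at h2
    rw [← Abelianization.ker_of]
    exact h2
  have hb : c g ^ p = 1 := by rw [← map_pow]; exact hcV _ hgV
  have hW : ∀ w : V, w ^ p = 1 := fun w => Subtype.ext (by
    rw [Subgroup.coe_pow, hVexp w w.2]; rfl)
  have hker : ∀ (k : ℕ) (w : V), ∏ i ∈ range p, ((c g₀ * c g ^ k) ^ i) w = 1 := by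
    intro k w
    have h1 : g₀ * g ^ k ∉ M := fun h => hg₀ (by
      have := M.mul_mem h (M.inv_mem (M.pow_mem hg k))
      rwa [mul_inv_cancel_right] at this)
    have h2 : (w : G) * (g₀ * g ^ k) ∉ M := fun h => h1 (by
      have := M.mul_mem (M.inv_mem (hVM w.2)) h
      rwa [inv_mul_cancel_left] at this)
    have h3 := hnorm w (g₀ * g ^ k) p
    rw [hout _ h1, hout _ h2, mul_one, map_mul, map_pow] at h3
    exact Subtype.ext h3.symm
  have hlast := norm_last hp (c g₀) (c g) hab hb hW hker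
  have h2 := hnorm ⟨v₀, hv₀⟩ g p
  rw [hlast, Subgroup.coe_one, one_mul] at h2
  exact h2

/-- the centre of the commutator subgroup -/
def zder (G : Type*) [Group G] : Subgroup G :=
  commutator G ⊓ Subgroup.centralizer (commutator G : Set G)

instance zder_normal (G : Type*) [Group G] : (zder G).Normal := by
  unfold zder
  infer_instance

theorem mem_zder {x : G} : x ∈ zder G ↔
    x ∈ commutator G ∧ ∀ y ∈ commutator G, x * y = y * x := by
  unfold zder
  rw [Subgroup.mem_inf, Subgroup.mem_centralizer_iff]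
  exact and_congr_right fun _ => ⟨fun h y hy => (h y hy).symm, fun h y hy => (h y hy).symm⟩

theorem zder_pow (hp : p.Prime) (hs : Setting p G Ω) (g : G) {v : G} (hv : v ∈ zder G) :
    (v * g) ^ p = g ^ p := by
  haveI : Fact p.Prime := ⟨hp⟩
  haveI : Group.IsNilpotent G := hs.pgroup.isNilpotent
  refine mul_pow_eq hp hs (zder G) (fun x hx y hy => (mem_zder.1 hx).2 y (mem_zder.1 hy).1)
    (fun x hx y hy => (mem_zder.1 hx).2 y hy) (fun M hM => ?_) g v hv
  have h1 := (commutator_le_coatom hM).2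
  have h2 : commutator G ≤ M := by
    rw [commutator_def, Subgroup.commutator_le]
    exact fun x _ y _ => h1 x y
  exact fun x hx => h2 (mem_zder.1 hx).1

theorem near_center (hp : p.Prime) (hs : Setting p G Ω) {g : G} (hg : ∀ y, ⁅g, y⁆ ∈ zder G) :
    g ^ p = 1 := by
  refine central_pow hs g fun y => ?_
  have h1 : ⁅y, g⁆ ∈ zder G := by
    rw [← commutatorElement_inv]
    exact (zder G).inv_mem (hg y)
  have h2 := zder_pow hp hs g h1
  have h3 : ⁅y, g⁆ * g = y * g * y⁻¹ := by
    rw [commutatorElement_def]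
    group
  rw [h3, conj_pow] at h2
  exact (mul_inv_eq_iff_eq_mul.1 h2).symm

theorem metabelian (hp : p.Prime) (hs : Setting p G Ω) (hmet : derivedSeries G 2 = ⊥) (g : G) :
    g ^ p = 1 := by
  refine near_center hp hs fun y => mem_zder.2 ⟨?_, fun w hw => ?_⟩
  · exact Subgroup.commutator_mem_commutator (Subgroup.mem_top _) (Subgroup.mem_top _)
  · have h1 : ⁅⁅g, y⁆, w⁆ ∈ derivedSeries G 2 := by
      rw [derivedSeries_succ, derivedSeries_one]
      exact Subgroup.commutator_mem_commutator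
        (Subgroup.commutator_mem_commutator (Subgroup.mem_top _) (Subgroup.mem_top _)) hw
    rw [hmet, Subgroup.mem_bot, commutatorElement_eq_one_iff_mul_comm] at h1
    exact h1

end

end Pool.Agent.K6.H91.MP
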