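import Mathlib

set_option autoImplicit false
set_option linter.unusedSectionVars false

/-!
# A noncommutative version of the lemma on the norms of the `p + 1` subgroups of a group of order `p ^ 2`
-/

namespace Pool.Agent.K6.H91.MP.Rng

open Finset Polynomial

section poly

variable {p : ℕ} [Fact p.Prime]

theorem geom (Y : (ZMod p)[X]) : ∑ k ∈ range p, Y ^ k = (Y - 1) ^ (p - 1) := by
  have hp := (Fact.out : p.Prime)
  by_cases h : Y - 1 = 0
  · have hY : Y = 1 := by linear_combination h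
    subst hY
    have h2 : p - 1 ≠ 0 := by have := hp.two_le; omega
    simp [h2]
  · apply mul_right_cancel₀ h
    rw [geom_sum_mul, ← pow_succ, Nat.sub_add_cancel hp.one_le, sub_pow_char, one_pow]

theorem dvd_S (l : ℕ) : ((X : (ZMod p)[X]) - 1) ^ (p - 2) ∣
    ∑ k ∈ range p, (∑ m ∈ range k, (X : (ZMod p)[X]) ^ m) * X ^ (k * l) := by
  have hp := (Fact.out : p.Prime)
  have hX : ((X : (ZMod p)[X]) - 1) ≠ 0 := by
    intro h
    have := congrArg (eval 0) h
    simp at this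
  have e1 : ((X : (ZMod p)[X]) - 1) ^ (p - 1) = (X - 1) * (X - 1) ^ (p - 2) := by
    rw [← pow_succ']
    congr 1
    have := hp.two_le
    omega
  have key : ((X : (ZMod p)[X]) - 1) * ∑ k ∈ range p, (∑ m ∈ range k, (X : (ZMod p)[X]) ^ m) * X ^ (k * l)
      = (X ^ (l + 1) - 1) ^ (p - 1) - (X ^ l - 1) ^ (p - 1) := by
    rw [← geom, ← geom, ← Finset.sum_sub_distrib, Finset.mul_sum]
    refine Finset.sum_congr rfl fun k _ => ?_
    rw [← mul_assoc, mul_geom_sum]
    ring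
  have h1 : ((X : (ZMod p)[X]) - 1) ^ (p - 1) ∣
      ((X : (ZMod p)[X]) - 1) * ∑ k ∈ range p, (∑ m ∈ range k, (X : (ZMod p)[X]) ^ m) * X ^ (k * l) := by
    rw [key]
    refine dvd_sub (pow_dvd_pow_of_dvd ?_ _) (pow_dvd_pow_of_dvd ?_ _)
    · exact sub_one_dvd_pow_sub_one _ _
    · exact sub_one_dvd_pow_sub_one _ _
  rw [e1] at h1
  exact (mul_dvd_mul_iff_left hX).1 h1

theorem D_eq : ∑ m ∈ range p, (m : (ZMod p)[X]) * X ^ m = - (X * (X - 1) ^ (p - 2)) := by
  have hp := (Fact.out : p.Prime)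
  have hX : ((X : (ZMod p)[X]) - 1) ≠ 0 := by
    intro h
    have := congrArg (eval 0) h
    simp at this
  have e1 : ((X : (ZMod p)[X]) - 1) ^ (p - 1) = (X - 1) * (X - 1) ^ (p - 2) := by
    rw [← pow_succ']
    congr 1
    have := hp.two_le
    omega
  have hgen : ∀ n : ℕ, ((X : (ZMod p)[X]) - 1) * ∑ m ∈ range n, (m : (ZMod p)[X]) * X ^ m =
      (n : (ZMod p)[X]) * X ^ n - X * ∑ m ∈ range n, (X : (ZMod p)[X]) ^ m := by
    intro n
    induction n with
    | zero => simp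
    | succ n ih =>
      rw [Finset.sum_range_succ, mul_add, ih, Finset.sum_range_succ]
      push_cast
      ring
  apply mul_left_cancel₀ hX
  rw [hgen p, geom]
  have : ((p : ℕ) : (ZMod p)[X]) = 0 := CharP.cast_eq_zero _ p
  rw [this, e1]
  ring

end poly

section ring

theorem sum_range_zmod {p : ℕ} [NeZero p] {W : Type*} [AddCommMonoid W] (f : ℕ → W) :
    ∑ i ∈ range p, f i = ∑ i : ZMod p, f i.val := by
  refine Finset.sum_bij' (fun i _ => (i : ZMod p)) (fun i _ => i.val) ?_ ?_ ?_ ?_ ?_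
  · intro i _; exact mem_univ _
  · intro i _; exact mem_range.2 (ZMod.val_lt i)
  · intro i hi; exact ZMod.val_cast_of_lt (mem_range.1 hi)
  · intro i _; exact ZMod.natCast_zmod_val i
  · intro i hi; rw [ZMod.val_cast_of_lt (mem_range.1 hi)]

variable {p : ℕ} [Fact p.Prime] {R : Type*} [Ring R] [Algebra (ZMod p) R]

/-- the data -/
structure Dat (p : ℕ) {R : Type*} [Ring R] (a b : R) (K : AddSubgroup R) : Prop where
  la : ∀ κ ∈ K, a * κ = κ
  lb : ∀ κ ∈ K, b * κ = κ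
  ra : ∀ κ ∈ K, κ * a ∈ K
  rb : ∀ κ ∈ K, κ * b ∈ K
  kk : ∀ κ ∈ K, ∀ κ' ∈ K, κ * κ' = 0
  com : b * a - a * b ∈ K
  pw : b ^ p - 1 ∈ K
  N : ∀ k < p, ∑ i ∈ range p, (a * b ^ k) ^ i = 0
  D : ∀ k < p, ∀ κ ∈ K, κ * ∑ m ∈ range p, (m : R) * (a * b ^ k) ^ m = 0

variable {a b : R} {K : AddSubgroup R}

theorem Dat.rbp (h : Dat p a b K) {κ : R} (hκ : κ ∈ K) (n : ℕ) : κ * b ^ n ∈ K := by
  induction n with
  | zero => simpa using hκ
  | succ n ih => rw [pow_succ, ← mul_assoc]; exact h.rb _ ih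

theorem Dat.rap (h : Dat p a b K) {κ : R} (hκ : κ ∈ K) (n : ℕ) : κ * a ^ n ∈ K := by
  induction n with
  | zero => simpa using hκ
  | succ n ih => rw [pow_succ, ← mul_assoc]; exact h.ra _ ih

theorem Dat.lbp (h : Dat p a b K) {κ : R} (hκ : κ ∈ K) (n : ℕ) : b ^ n * κ = κ := by
  induction n with
  | zero => simp
  | succ n ih => rw [pow_succ, mul_assoc, h.lb _ hκ, ih]

theorem Dat.lap (h : Dat p a b K) {κ : R} (hκ : κ ∈ K) (n : ℕ) : a ^ n * κ = κ := by
  induction n with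
  | zero => simp
  | succ n ih => rw [pow_succ, mul_assoc, h.la _ hκ, ih]

theorem Dat.comm2 (h : Dat p a b K) (n : ℕ) : ∀ κ ∈ K, κ * (b ^ n * a) = κ * (a * b ^ n) := by
  induction n with
  | zero => intro κ _; simp
  | succ n ih =>
    intro κ hκ
    have h1 := h.kk _ (h.rbp hκ n) _ h.com
    have h2 := ih κ hκ
    have e1 : κ * (b ^ (n + 1) * a) = κ * b ^ n * (b * a - a * b) + κ * (b ^ n * a) * b := by
      rw [pow_succ]; noncomm_ring
    rw [e1, h1, h2, zero_add, pow_succ]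
    noncomm_ring

theorem Dat.S1 (h : Dat p a b K) {κ : R} (hκ : κ ∈ K) (k m : ℕ) :
    κ * (a * b ^ k) ^ m = κ * (a ^ m * b ^ (k * m)) := by
  induction m with
  | zero => simp
  | succ m ih =>
    have h1 := h.comm2 (k * m) _ (h.rap hκ m)
    rw [pow_succ, ← mul_assoc, ih]
    have e1 : κ * (a ^ m * b ^ (k * m)) * (a * b ^ k) = κ * a ^ m * (b ^ (k * m) * a) * b ^ k := by
      noncomm_ring
    have e3 : b ^ (k * (m + 1)) = b ^ (k * m) * b ^ k := by rw [Nat.mul_succ, pow_add]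
    rw [e1, h1, e3, pow_succ a]
    noncomm_ring

theorem Dat.per (h : Dat p a b K) {κ : R} (hκ : κ ∈ K) (n : ℕ) : κ * b ^ n = κ * b ^ (n % p) := by
  have h1 : ∀ κ ∈ K, ∀ t : ℕ, κ * (b ^ p) ^ t = κ := by
    intro κ hκ t
    induction t with
    | zero => simp
    | succ t ih =>
      rw [pow_succ, ← mul_assoc, ih]
      have := h.kk _ hκ _ h.pw
      rw [mul_sub, mul_one, sub_eq_zero] at this
      exact this
  conv_lhs => rw [← Nat.mod_add_div n p, pow_add, pow_mul, ← mul_assoc, h1 _ (h.rbp hκ _)]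

theorem p0 : ((p : ℕ) : R) = 0 := by
  have h1 : algebraMap (ZMod p) R (p : ZMod p) = 0 := by rw [CharP.cast_eq_zero, map_zero]
  rwa [map_natCast] at h1

theorem Dat.Db (h : Dat p a b K) {κ : R} (hκ : κ ∈ K) :
    κ * ∑ m ∈ range p, (m : R) * b ^ m = 0 := by
  have hp := (Fact.out : p.Prime)
  obtain ⟨f, hf⟩ : ∃ f : ZMod p → ZMod p → R, ∀ i j, f i j = κ * (a ^ i.val * b ^ j.val) :=
    ⟨_, fun _ _ => rfl⟩
  have hcast : ∀ (m : ZMod p) (y : R), ((m.val : ℕ) : R) * y = m • y := by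
    intro m y
    rw [Algebra.smul_def, ← map_natCast (algebraMap (ZMod p) R), ZMod.natCast_zmod_val]
  have h1 : ∀ k : ZMod p, ∑ m : ZMod p, m • f m (k * m) = 0 := by
    intro k
    have := h.D k.val (ZMod.val_lt k) κ hκ
    rw [sum_range_zmod (fun m => (m : R) * (a * b ^ k.val) ^ m), Finset.mul_sum] at this
    rw [← this]
    refine Finset.sum_congr rfl fun m _ => ?_
    rw [hcast, mul_smul_comm, h.S1 hκ, hf, ← mul_assoc κ (a ^ _), ← mul_assoc κ (a ^ _),
      h.per (h.rap hκ _) (k.val * m.val), ZMod.val_mul]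
  have h2 : ∑ m : ZMod p, ∑ k : ZMod p, (k * m) • f m (k * m) = 0 := by
    rw [Finset.sum_comm]
    refine Finset.sum_eq_zero fun k _ => ?_
    rw [← smul_zero k, ← h1 k, Finset.smul_sum]
    exact Finset.sum_congr rfl fun m _ => (smul_smul k m _).symm
  have h3 : ∑ m : ZMod p, ∑ j : ZMod p, j • f m j = 0 := by
    rw [Finset.sum_comm]
    refine Finset.sum_eq_zero fun j _ => ?_
    have h4 := h.N 0 hp.pos
    rw [sum_range_zmod (fun i => (a * b ^ 0) ^ i)] at h4
    have h5 : ∑ i : ZMod p, f i j = κ * ((∑ i : ZMod p, (a * b ^ 0) ^ i.val) * b ^ j.val) := by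
      rw [Finset.sum_mul, Finset.mul_sum]
      refine Finset.sum_congr rfl fun i _ => ?_
      rw [hf, pow_zero, mul_one]
    rw [← Finset.smul_sum, h5, h4]
    simp
  rw [← Finset.add_sum_erase _ _ (mem_univ (0 : ZMod p))] at h2 h3
  have h4 : ∑ m ∈ univ.erase (0 : ZMod p), ∑ k : ZMod p, (k * m) • f m (k * m) =
      ∑ m ∈ univ.erase (0 : ZMod p), ∑ j : ZMod p, j • f m j := by
    refine Finset.sum_congr rfl fun m hm => ?_
    exact Equiv.sum_comp (Equiv.mulRight₀ m (ne_of_mem_erase hm)) (fun j => j • f m j)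
  rw [← h4] at h3
  simp only [mul_zero, zero_smul, Finset.sum_const_zero, zero_add] at h2
  rw [h2, add_zero] at h3
  rw [sum_range_zmod (fun m => (m : R) * b ^ m), Finset.mul_sum, ← h3]
  refine Finset.sum_congr rfl fun m _ => ?_
  rw [hcast, mul_smul_comm, hf]
  simp

theorem Dat.kp2 (h : Dat p a b K) {κ : R} (hκ : κ ∈ K) : κ * (b - 1) ^ (p - 2) = 0 := by
  have hp := (Fact.out : p.Prime)
  have h1 : ∀ κ ∈ K, κ * (b * (b - 1) ^ (p - 2)) = 0 := by
    intro κ hκ
    have h2 := h.Db hκ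
    have h3 := congrArg (aeval b) (D_eq (p := p))
    simp only [map_sum, map_mul, map_natCast, map_pow, aeval_X, map_neg, map_sub, map_one] at h3
    rw [h3, mul_neg, neg_eq_zero] at h2
    exact h2
  have h2 := h1 _ (h.rbp hκ (p - 1))
  have h3 : κ * b ^ (p - 1) * (b * (b - 1) ^ (p - 2)) = κ * b ^ p * (b - 1) ^ (p - 2) := by
    have : b ^ p = b ^ (p - 1) * b := by rw [← pow_succ, Nat.sub_add_cancel hp.one_le]
    rw [this]
    noncomm_ring
  rw [h3, h.per hκ p, Nat.mod_self, pow_zero, mul_one] at h2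
  exact h2

theorem Dat.kS (h : Dat p a b K) {κ : R} (hκ : κ ∈ K) (l : ℕ) :
    κ * ∑ k ∈ range p, (∑ m ∈ range k, b ^ m) * b ^ (k * l) = 0 := by
  obtain ⟨q, hq⟩ := dvd_S (p := p) l
  have h3 := congrArg (aeval b) hq
  simp only [map_sum, map_mul, map_pow, aeval_X, map_sub, map_one] at h3
  rw [h3, ← mul_assoc, h.kp2 hκ, zero_mul]

theorem Dat.th (h : Dat p a b K) (l : ℕ) : b * a ^ l - a ^ l * b ∈ K := by
  induction l with
  | zero => simp [K.zero_mem]
  | succ l ih =>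
    have e : b * a ^ (l + 1) - a ^ (l + 1) * b =
        (b * a ^ l - a ^ l * b) * a + a ^ l * (b * a - a * b) := by
      rw [pow_succ]; noncomm_ring
    rw [e, h.lap h.com]
    exact K.add_mem (h.ra _ ih) h.com

theorem Dat.sw (h : Dat p a b K) (l k : ℕ) :
    b ^ k * a ^ l = a ^ l * b ^ k + (b * a ^ l - a ^ l * b) * ∑ m ∈ range k, b ^ m := by
  induction k with
  | zero => simp
  | succ k ih =>
    have h1 := h.lb _ (h.th l)
    rw [pow_succ', mul_assoc, ih, Finset.sum_range_succ, mul_add, ← mul_assoc b (b * a ^ l - a ^ l * b),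
      h1]
    noncomm_ring

theorem Dat.pwk (h : Dat p a b K) (k i : ℕ) :
    (∑ l ∈ range i, (b * a ^ l - a ^ l * b) * ((∑ m ∈ range k, b ^ m) * b ^ (k * l))) ∈ K ∧
    (a * b ^ k) ^ i = a ^ i * b ^ (k * i) +
      ∑ l ∈ range i, (b * a ^ l - a ^ l * b) * ((∑ m ∈ range k, b ^ m) * b ^ (k * l)) := by
  have hK : ∀ l : ℕ, (b * a ^ l - a ^ l * b) * ((∑ m ∈ range k, b ^ m) * b ^ (k * l)) ∈ K := by
    intro l
    rw [← mul_assoc]
    refine h.rbp ?_ _
    rw [Finset.mul_sum]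
    exact K.sum_mem fun m _ => h.rbp (h.th l) m
  refine ⟨K.sum_mem fun l _ => hK l, ?_⟩
  induction i with
  | zero => simp
  | succ i ih =>
    have h2 : ∀ κ ∈ K, a * b ^ k * κ = κ := by
      intro κ hκ
      rw [mul_assoc, h.lbp hκ, h.la _ hκ]
    rw [pow_succ', ih, mul_add, h2 _ (K.sum_mem fun l _ => hK l), Finset.sum_range_succ]
    have e1 : a * b ^ k * (a ^ i * b ^ (k * i)) = a * (b ^ k * a ^ i) * b ^ (k * i) := by
      noncomm_ring
    have e2 : a * ((b * a ^ i - a ^ i * b) * ∑ m ∈ range k, b ^ m) =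
        (b * a ^ i - a ^ i * b) * ∑ m ∈ range k, b ^ m := by
      rw [← mul_assoc, h.la _ (h.th i)]
    have e3 : b ^ (k * (i + 1)) = b ^ k * b ^ (k * i) := by rw [Nat.mul_succ, add_comm, pow_add]
    rw [e1, h.sw i k, mul_add, e2, add_mul, e3, pow_succ' a]
    noncomm_ring

theorem Dat.bn (h : Dat p a b K) (n : ℕ) : b ^ n = b ^ (n % p) + ((n / p : ℕ) : R) * (b ^ p - 1) := by
  have h1 : ∀ t : ℕ, (b ^ p) ^ t = 1 + (t : R) * (b ^ p - 1) := by
    intro t
    induction t with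
    | zero => simp
    | succ t ih =>
      have h2 := h.kk _ h.pw _ h.pw
      have e : (1 + (t : R) * (b ^ p - 1)) * b ^ p =
          1 + (t : R) * (b ^ p - 1) + (b ^ p - 1) + (t : R) * ((b ^ p - 1) * (b ^ p - 1)) := by
        noncomm_ring
      rw [pow_succ, ih, e, h2]
      push_cast
      noncomm_ring
  conv_lhs => rw [← Nat.mod_add_div n p, pow_add, pow_mul, h1]
  rw [mul_add, mul_one]
  congr 1
  rw [← mul_assoc, ← (Nat.cast_commute (n / p) (b ^ (n % p))).eq, mul_assoc, h.lbp h.pw]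

theorem Dat.main (h : Dat p a b K) : ∑ i ∈ range p, b ^ i = 0 := by
  have hp := (Fact.out : p.Prime)
  have h1 : ∑ k ∈ range p, ∑ i ∈ range p, (a * b ^ k) ^ i = 0 :=
    Finset.sum_eq_zero fun k hk => h.N k (mem_range.1 hk)
  have h2 : ∑ i ∈ range p, ∑ k ∈ range p, a ^ i * b ^ (k * i) = 0 := by
    rw [Finset.sum_comm, ← h1]
    rw [← sub_eq_zero, ← Finset.sum_sub_distrib]
    have e : ∀ k ∈ range p, (∑ i ∈ range p, a ^ i * b ^ (k * i)) - (∑ i ∈ range p, (a * b ^ k) ^ i) =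
        - ∑ i ∈ range p, ∑ l ∈ range i,
          (b * a ^ l - a ^ l * b) * ((∑ m ∈ range k, b ^ m) * b ^ (k * l)) := by
      intro k _
      rw [← Finset.sum_sub_distrib, ← Finset.sum_neg_distrib]
      refine Finset.sum_congr rfl fun i _ => ?_
      rw [(h.pwk k i).2]
      abel
    rw [Finset.sum_congr rfl e, Finset.sum_neg_distrib, neg_eq_zero, Finset.sum_comm]
    refine Finset.sum_eq_zero fun i _ => ?_
    rw [Finset.sum_comm]
    refine Finset.sum_eq_zero fun l _ => ?_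
    rw [← Finset.mul_sum]
    exact h.kS (h.th l) l
  have h3 : ∀ i ∈ (range p).erase 0, ∑ k ∈ range p, a ^ i * b ^ (k * i) =
      a ^ i * (∑ j ∈ range p, b ^ j) + ((∑ k ∈ range p, k * i / p : ℕ) : R) * (b ^ p - 1) := by
    intro i hi
    obtain ⟨hi0, hip⟩ := Finset.mem_erase.1 hi
    rw [mem_range] at hip
    have hiz : (i : ZMod p) ≠ 0 := by
      rw [Ne, ZMod.natCast_eq_zero_iff]
      intro hd
      exact absurd (Nat.le_of_dvd (Nat.pos_of_ne_zero hi0) hd) (by omega)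
    have e1 : ∑ k ∈ range p, b ^ (k * i % p) = ∑ j ∈ range p, b ^ j := by
      rw [sum_range_zmod (fun k => b ^ (k * i % p)), sum_range_zmod (fun j => b ^ j)]
      rw [← Equiv.sum_comp (Equiv.mulRight₀ (i : ZMod p) hiz) (fun j => b ^ j.val)]
      refine Finset.sum_congr rfl fun k _ => ?_
      congr 1
      show k.val * i % p = (k * (i : ZMod p)).val
      rw [ZMod.val_mul, ZMod.val_cast_of_lt hip]
    rw [← Finset.mul_sum, Finset.sum_congr rfl fun k _ => h.bn (k * i), Finset.sum_add_distrib, e1,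
      mul_add, ← Finset.sum_mul]
    congr 1
    rw [← mul_assoc, ← Nat.cast_sum, ← (Nat.cast_commute _ (a ^ i)).eq, mul_assoc, h.lap h.pw]
  rw [← Finset.add_sum_erase _ _ (mem_range.2 hp.pos)] at h2
  have h4 : ∑ k ∈ range p, a ^ 0 * b ^ (k * 0) = 0 := by
    simp [p0]
  rw [h4, zero_add, Finset.sum_congr rfl h3, Finset.sum_add_distrib, ← Finset.sum_mul, ← Finset.sum_mul]
    at h2
  have h5 := h.N 0 hp.pos
  simp only [pow_zero, mul_one] at h5
  rw [← Finset.add_sum_erase _ _ (mem_range.2 hp.pos), pow_zero] at h5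
  have h6 : ∑ i ∈ (range p).erase 0, a ^ i = -1 := by
    rw [eq_neg_iff_add_eq_zero, add_comm]; exact h5
  rw [h6, ← Nat.cast_sum] at h2
  obtain ⟨C, hC⟩ : ∃ C : ℕ, C = ∑ i ∈ (range p).erase 0, ∑ k ∈ range p, k * i / p := ⟨_, rfl⟩
  rw [← hC] at h2
  have h7 : ∑ j ∈ range p, b ^ j = (C : R) * (b ^ p - 1) := by
    rw [neg_one_mul, neg_add_eq_zero] at h2
    exact h2
  have h8 : (b ^ p - 1) = (C : R) * ((b ^ p - 1) * (b - 1)) := by
    rw [← mul_assoc, ← h7, geom_sum_mul]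
  have h9 : ∀ n : ℕ, (b ^ p - 1) = (C : R) ^ n * ((b ^ p - 1) * (b - 1) ^ n) := by
    intro n
    induction n with
    | zero => simp
    | succ n ih =>
      have e : (C : R) ^ (n + 1) * ((b ^ p - 1) * (b - 1) ^ (n + 1)) =
          (C : R) ^ n * (((C : R) * ((b ^ p - 1) * (b - 1))) * (b - 1) ^ n) := by
        rw [pow_succ, pow_succ' (b - 1)]
        noncomm_ring
      rw [e, ← h8]
      exact ih
  have h10 : b ^ p - 1 = 0 := by
    rw [h9 (p - 2), h.kp2 h.pw, mul_zero]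
  rw [h7, h10, mul_zero]

end ring

end Pool.Agent.K6.H91.MP.Rng
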